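import Pool.Agent.H98.OCM.Defs
import Pool.Agent.H86.OC.RASa
import Pool.Agent.H41.STK.Q22

/-!
# OCM: carries and faces for vectors of shifts
-/

set_option autoImplicit false

namespace Pool.OCM

open Finset Real
open Pool.Agent.H49.Ent Pool.Agent.H32.Dense Pool.STK Pool.KAF

/-- A sum over vectors, one coordinate first. -/
theorem sum_coord {c M : ℕ} (i : Fin c) (f : (Fin c → Fin M) → ℝ) (B : ℝ)
    (h : ∀ v : {j // j ≠ i} → Fin M,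
      ∑ t : Fin M, f ((Equiv.funSplitAt i (Fin M)).symm (t, v)) ≤ M * B) :
    ∑ u, f u ≤ (M : ℝ) ^ c * B := by
  classical
  have e1 : ∀ g : (Fin c → Fin M) → ℝ, ∑ u, g u =
      ∑ v : {j // j ≠ i} → Fin M, ∑ t : Fin M, g ((Equiv.funSplitAt i (Fin M)).symm (t, v)) := by
    intro g
    rw [← Fintype.sum_prod_type_right (f := fun x => g ((Equiv.funSplitAt i (Fin M)).symm x))]
    exact (Equiv.sum_comp (Equiv.funSplitAt i (Fin M)).symm g).symm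
  calc ∑ u, f u = _ := e1 f
    _ ≤ ∑ _v : {j // j ≠ i} → Fin M, (M : ℝ) * B := Finset.sum_le_sum fun v _ => h v
    _ = ∑ _v : {j // j ≠ i} → Fin M, ∑ _t : Fin M, B := by
      refine Finset.sum_congr rfl fun v _ => ?_
      rw [Finset.sum_const, Finset.card_univ, Fintype.card_fin, nsmul_eq_mul]
    _ = ∑ _u : Fin c → Fin M, B := (e1 fun _ => B).symm
    _ = (M : ℝ) ^ c * B := by
      rw [Finset.sum_const, Finset.card_univ, Fintype.card_fun, Fintype.card_fin,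
        Fintype.card_fin, nsmul_eq_mul]
      push_cast
      rfl

theorem split_self {c M : ℕ} (i : Fin c) (t : Fin M) (v : {j // j ≠ i} → Fin M) :
    (Equiv.funSplitAt i (Fin M)).symm (t, v) i = t := by
  simp [Equiv.funSplitAt]

open Classical in
/-- **(NEARV)** Few shifts bring a vector near the faces of its cell. -/
theorem nearV {c : ℕ} (X Ξ L : ℕ) (hΞ : Ξ ≤ X) (n : Fin c → ℤ) :
    ∑ u : Fin c → Fin (2 ^ X), (if ∃ i, (n i + ((u i : ℕ) : ℤ)) % ((2 ^ Ξ : ℕ) : ℤ) < L ∨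
      ((2 ^ Ξ : ℕ) : ℤ) - L ≤ (n i + ((u i : ℕ) : ℤ)) % ((2 ^ Ξ : ℕ) : ℤ) then (1 : ℝ) else 0) ≤
      (2 : ℝ) ^ (c * X) * (c * (2 * L / 2 ^ Ξ)) := by
  have h1 : ∀ u : Fin c → Fin (2 ^ X),
      (if ∃ i, (n i + ((u i : ℕ) : ℤ)) % ((2 ^ Ξ : ℕ) : ℤ) < L ∨
      ((2 ^ Ξ : ℕ) : ℤ) - L ≤ (n i + ((u i : ℕ) : ℤ)) % ((2 ^ Ξ : ℕ) : ℤ) then (1 : ℝ) else 0) ≤
      ∑ i, (if (n i + ((u i : ℕ) : ℤ)) % ((2 ^ Ξ : ℕ) : ℤ) < L ∨
      ((2 ^ Ξ : ℕ) : ℤ) - L ≤ (n i + ((u i : ℕ) : ℤ)) % ((2 ^ Ξ : ℕ) : ℤ) then (1 : ℝ) else 0) := by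
    intro u
    have h0 : ∀ i, (0 : ℝ) ≤ (if (n i + ((u i : ℕ) : ℤ)) % ((2 ^ Ξ : ℕ) : ℤ) < L ∨
      ((2 ^ Ξ : ℕ) : ℤ) - L ≤ (n i + ((u i : ℕ) : ℤ)) % ((2 ^ Ξ : ℕ) : ℤ) then (1 : ℝ) else 0) := by
      intro i
      split_ifs
      · exact zero_le_one
      · exact le_rfl
    split_ifs with h
    · obtain ⟨i, hi⟩ := h
      refine le_trans ?_ (Finset.single_le_sum (fun j _ => h0 j) (Finset.mem_univ i))
      rw [if_pos hi]
    · exact Finset.sum_nonneg fun i _ => h0 i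
  refine (Finset.sum_le_sum fun u _ => h1 u).trans ?_
  rw [Finset.sum_comm]
  have h2 : ∀ i : Fin c, ∑ u : Fin c → Fin (2 ^ X),
      (if (n i + ((u i : ℕ) : ℤ)) % ((2 ^ Ξ : ℕ) : ℤ) < L ∨
      ((2 ^ Ξ : ℕ) : ℤ) - L ≤ (n i + ((u i : ℕ) : ℤ)) % ((2 ^ Ξ : ℕ) : ℤ) then (1 : ℝ) else 0) ≤
      (((2 ^ X : ℕ) : ℝ)) ^ c * (2 * L / 2 ^ Ξ) := by
    intro i
    refine sum_coord i _ _ fun v => ?_
    have h3 := Pool.OC.RS.near_count X Ξ L hΞ (n i)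
    rw [Finset.sum_range] at h3
    push_cast at h3 ⊢
    refine le_trans (le_of_eq (Finset.sum_congr rfl fun t _ => ?_)) h3
    rw [split_self]
  refine (Finset.sum_le_sum fun i _ => h2 i).trans (le_of_eq ?_)
  rw [Finset.sum_const, Finset.card_univ, Fintype.card_fin, nsmul_eq_mul]
  push_cast
  rw [← pow_mul, mul_comm X c]
  ring

/-- **(CARRYV)** A label which gives the vector `N` up to `L` gives the cell of `N + u`, but for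
few shifts `u`. -/
theorem carryV {Ω S : Type} [Fintype Ω] {c : ℕ} {p : Ω → ℝ} (hp : IsLaw p)
    (N : Ω → Fin c → ℤ) {X Ξ L : ℕ} (hΞ : Ξ ≤ X) (hL : L ≤ 2 ^ Ξ)
    (W : (Fin c → Fin (2 ^ X)) → Ω → S)
    (hW : ∀ u ω ω', 0 < p ω → 0 < p ω' → W u ω = W u ω' → ∀ i, |N ω i - N ω' i| ≤ L) :
    ∑ u, CH p (rc (sh N u) Ξ) (W u) ≤ (2 : ℝ) ^ (c * X) * (c * (4 * L / 2 ^ Ξ)) := by
  classical
  have h1 : ∀ u : Fin c → Fin (2 ^ X), CH p (rc (sh N u) Ξ) (W u) ≤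
      ∑ i, CH p (fun ω => (N ω i + ((u i : ℕ) : ℤ)) / ((2 ^ Ξ : ℕ) : ℤ)) (W u) :=
    fun u => Pool.STK.Q22.CH_pi hp.nonneg (W u) c (rc (sh N u) Ξ)
  refine (Finset.sum_le_sum fun u _ => h1 u).trans ?_
  rw [Finset.sum_comm]
  have h2 : ∀ i : Fin c, ∑ u : Fin c → Fin (2 ^ X),
      CH p (fun ω => (N ω i + ((u i : ℕ) : ℤ)) / ((2 ^ Ξ : ℕ) : ℤ)) (W u) ≤
      (((2 ^ X : ℕ) : ℝ)) ^ c * (4 * L / 2 ^ Ξ) := by
    intro i
    refine sum_coord i _ _ fun v => ?_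
    have hM : 0 < 2 ^ X := by positivity
    have h3 := Pool.OC.RS.carry hp (fun ω => N ω i) hΞ hL
      (fun t => W ((Equiv.funSplitAt i (Fin (2 ^ X))).symm (⟨t % 2 ^ X, Nat.mod_lt _ hM⟩, v)))
      (fun t ω ω' a b h => hW _ ω ω' a b h i)
    rw [Finset.sum_range] at h3
    push_cast at h3 ⊢
    refine le_trans (le_of_eq (Finset.sum_congr rfl fun t _ => ?_)) h3
    have e : (⟨(t : ℕ) % 2 ^ X, Nat.mod_lt _ hM⟩ : Fin (2 ^ X)) = t :=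
      Fin.ext (Nat.mod_eq_of_lt t.2)
    rw [e, split_self]
  refine (Finset.sum_le_sum fun i _ => h2 i).trans (le_of_eq ?_)
  rw [Finset.sum_const, Finset.card_univ, Fintype.card_fin, nsmul_eq_mul]
  push_cast
  rw [← pow_mul, mul_comm X c]
  ring

end Pool.OCM
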